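import Pool.Agent.T9h90.PW.Ext

/-!
# Palindromic width of finitely generated solvable groups, for every finite generating set

Partial answer to question Q2.  The palindromic width is `palWidth` of
`Pool.Agent.Results.MP_738270_al.SomeGenSet`.
-/

set_option autoImplicit false

universe u

namespace Pool.Agent.Results.MP_738270_al.ThinSeries

open scoped commutatorElement
open Pool.Agent.T9h90.PW (low Thin ser)
open Pool.Agent.Results.MP_738270_al.SomeGenSet (palWidth)

/-- **Theorem.** Let `G` be a group with a series `B_0 = G`, `B_(i+1) = γ_(c_i + 1)(B_i)`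
(`c_i ≥ 1`), `B_m = 1`; every solvable group has one, the derived series (`c_i = 1`).
If `B_i` is thin for `2 ≤ i < m`, then `PW(G, X) < ∞` for every finite generating set `X`.

Here `B` is thin if it is generated by finitely many conjugacy classes of `G` and a subgroup `A`,
normal in `G`, such that `[A, A]` is covered by finitely many sets
`t · {b ^ 2 : b ∈ [B, B]} · [[B, B], G]`. -/
theorem result (G : Type u) [Group G] (c : ℕ → ℕ) (hc : ∀ i, 1 ≤ c i) (m : ℕ)
    (hm : ser c m = (⊥ : Subgroup G))
    (h : ∀ i, 2 ≤ i → i < m → Thin (ser c i : Subgroup G))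
    (X : Finset G) (hX : Subgroup.closure (X : Set G) = ⊤) :
    palWidth (X : Set G) < ⊤ :=
  Pool.Agent.T9h90.PW.main hX c hc m hm h

end Pool.Agent.Results.MP_738270_al.ThinSeries
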